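import Mathlib
import Pool.Agent.V11278.DegMono5

/-!
# MP_161132_co: `h(n,k) ≤ 2 n` for every `k ≥ 2` and all large `n` (helper278)

Definitions (from `Pool.Agent.V11278.DegMono`):
* `dg G v` is the number of neighbours of `v`;
* `IsDMP G l`: the list `l` has distinct entries, consecutive entries are adjacent, and the degrees
  are nondecreasing along `l` or nonincreasing along `l`;
* `mp G` is the largest length (number of vertices) of such a list;
* `KSat k G`: `mp G < k` and `k ≤ mp (G ⊔ edge u v)` for all non-adjacent `u ≠ v`.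
-/

namespace Pool.Agent.Results.MP_161132_co.LinearSaturation

open Pool.Agent.V11278.DegMono

/-- The saturation number `h(n,k)`: the least number of edges of a `k`-saturated graph on `n`
vertices. -/
noncomputable def h (n k : ℕ) : ℕ :=
  sInf {e | ∃ G : SimpleGraph (Fin n), KSat k G ∧ G.edgeSet.ncard = e}

/-- There is an absolute constant (namely `2`) such that for every `k ≥ 2` and all sufficiently
large `n`, `k`-saturated graphs on `n` vertices exist and `h(n,k) ≤ 2 n`. -/
theorem result : ∀ k : ℕ, 2 ≤ k → ∃ n₀ : ℕ, ∀ n : ℕ, n₀ ≤ n →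
    {e | ∃ G : SimpleGraph (Fin n), KSat k G ∧ G.edgeSet.ncard = e}.Nonempty ∧
    h n k ≤ 2 * n := by
  intro k hk
  obtain ⟨n₀, h₀⟩ := exists_sat k hk
  refine ⟨n₀, fun n hn => ?_⟩
  obtain ⟨G, h1, h2⟩ := h₀ n hn
  have hmem : G.edgeSet.ncard ∈
      {e | ∃ G : SimpleGraph (Fin n), KSat k G ∧ G.edgeSet.ncard = e} := ⟨G, h1, rfl⟩
  exact ⟨⟨_, hmem⟩, (Nat.sInf_le hmem).trans h2⟩

end Pool.Agent.Results.MP_161132_co.LinearSaturation
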